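import Pool.Agent.helper77.SK.Spec

/-! Row sk:FV. -/

set_option autoImplicit false

namespace Pool.Agent.SK

open Polynomial Finset

theorem FV_coeff (p : ℕ) [Fact p.Prime] (B : Finset (ZMod p)) (d : ℕ) (ε a : ZMod p) (j : ℕ) :
    tc (FF B d ε) a j =
      (((d + B.card - 1).choose j : ℕ) : ZMod p) *
        (∑ b ∈ B, cw B b * (a - b) ^ (d + B.card - 1 - j)) - (C ε : (ZMod p)[X]).coeff j := by
  unfold tc FF
  rw [map_sub, map_sum, coeff_sub, finset_sum_coeff, taylor_C, mul_sum]
  congr 1
  refine Finset.sum_congr rfl fun b _ => ?_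
  have h : taylor a (C (cw B b) * (X - C b) ^ (d + B.card - 1)) =
      C (cw B b) * (X + C (a - b)) ^ (d + B.card - 1) := by
    rw [taylor_mul, taylor_C, taylor_pow, map_sub, taylor_X, taylor_C]
    have : (X : (ZMod p)[X]) + C a - C b = X + C (a - b) := by
      rw [C_sub]; ring
    rw [this]
  rw [h, coeff_C_mul, coeff_X_add_C_pow]
  ring

theorem FV_ne (p : ℕ) [Fact p.Prime] (A B : Finset (ZMod p)) (d : ℕ) (ε : ZMod p)
    (hd : 1 ≤ d) (h : Cl A B d ε) (a : ZMod p) (ha : a ∈ A) (b : ZMod p) (hb : b ∈ B) :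
    a - b ≠ 0 := by
  intro h0
  have h1 := h.2 a ha b hb
  rw [h0, zero_pow (by omega)] at h1
  exact h.1 h1.symm

theorem FV (hLG : LG_stmt) : FV_stmt := by
  intro p _ A B d ε hB hd hCl a ha
  have hc : 1 ≤ B.card := hB.card_pos
  refine ⟨?_, ?_⟩
  · intro j hj
    rw [FV_coeff]
    have hsum : ∑ b ∈ B, cw B b * (a - b) ^ (d + B.card - 1 - j) =
        ε * ∑ b ∈ B, cw B b * ((C a - X : (ZMod p)[X]) ^ (B.card - 1 - j)).eval b := by
      rw [mul_sum]
      refine Finset.sum_congr rfl fun b hb => ?_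
      have he : d + B.card - 1 - j = d + (B.card - 1 - j) := by omega
      rw [he, pow_add, hCl.2 a ha b hb]
      simp only [eval_pow, eval_sub, eval_C, eval_X]
      ring
    have hnat : ((C a - X : (ZMod p)[X]) ^ (B.card - 1 - j)).natDegree ≤ B.card - 1 - j := by
      have h1 : (C a - X : (ZMod p)[X]).natDegree ≤ 1 := by
        refine (natDegree_sub_le _ _).trans ?_
        simp [natDegree_C, natDegree_X]
      refine (natDegree_pow_le).trans ?_
      calc (B.card - 1 - j) * (C a - X : (ZMod p)[X]).natDegree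
          ≤ (B.card - 1 - j) * 1 := Nat.mul_le_mul_left _ h1
        _ = B.card - 1 - j := by ring
    have hdeg : ((C a - X : (ZMod p)[X]) ^ (B.card - 1 - j)).degree <
        (B.card : WithBot ℕ) := by
      refine lt_of_le_of_lt degree_le_natDegree ?_
      exact_mod_cast lt_of_le_of_lt hnat (by omega)
    rw [hsum, hLG p B _ hB hdeg]
    rcases Nat.eq_zero_or_pos j with hj0 | hj0
    · subst hj0
      have hco : ((C a - X : (ZMod p)[X]) ^ (B.card - 1 - 0)).coeff (B.card - 1) =
          (-1) ^ (B.card - 1) := by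
        have h2 : (C a - X : (ZMod p)[X]) = (-1 : (ZMod p)[X]) * (X + C (-a)) := by
          rw [C_neg]; ring
        have h3 : ((-1 : (ZMod p)[X]) ^ (B.card - 1)) = C ((-1 : ZMod p) ^ (B.card - 1)) := by
          rw [C_pow, C_neg, C_1]
        rw [Nat.sub_zero, h2, mul_pow, h3, coeff_C_mul, coeff_X_add_C_pow]
        simp
      rw [hco]
      have h4 : ((-1 : ZMod p) ^ (B.card - 1)) * (-1) ^ (B.card - 1) = 1 := by
        rw [← mul_pow]; simp
      rw [h4]
      simp
    · have hco : ((C a - X : (ZMod p)[X]) ^ (B.card - 1 - j)).coeff (B.card - 1) = 0 := by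
        apply coeff_eq_zero_of_natDegree_lt
        exact lt_of_le_of_lt hnat (by omega)
      rw [hco, coeff_C, if_neg (by omega)]
      ring
  · intro i hi
    rw [FV_coeff, coeff_C, if_neg (by omega), sub_zero]
    have hsum : ∑ b ∈ B, cw B b * (a - b) ^ (d + B.card - 1 - (B.card + i)) =
        ε * sg B a i := by
      unfold sg
      rw [mul_sum]
      refine Finset.sum_congr rfl fun b hb => ?_
      have hne := FV_ne p A B d ε hd hCl a ha b hb
      have he : d + B.card - 1 - (B.card + i) + (i + 1) = d := by omega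
      have h1 : (a - b) ^ (d + B.card - 1 - (B.card + i)) * (a - b) ^ (i + 1) = ε := by
        rw [← pow_add, he, hCl.2 a ha b hb]
      have hne' : (a - b) ^ (i + 1) ≠ 0 := pow_ne_zero _ hne
      have h2 : (a - b) ^ (d + B.card - 1 - (B.card + i)) = ε * ((a - b) ^ (i + 1))⁻¹ := by
        rw [eq_mul_inv_iff_mul_eq₀ hne']
        exact h1
      rw [h2]
      ring
    rw [hsum]
    ring

end Pool.Agent.SK
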