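import Pool.Agent.helper77.SK.Spec2

/-!
# Row SGE: the weighted power sums, order 4 (after helper5/SK/SG.lean)
-/

set_option autoImplicit false

namespace Pool.Agent.SK

open Polynomial Finset

section
variable {p : ℕ} [Fact p.Prime]

theorem SGE_factor (B : Finset (ZMod p)) (a b : ZMod p) (hb : b ∈ B) :
    taylor a (pol B) = X * taylor a (∏ b' ∈ B.erase b, (X - C b')) +
      C (a - b) * taylor a (∏ b' ∈ B.erase b, (X - C b')) := by
  have h1 : pol B = (X - C b) * ∏ b' ∈ B.erase b, (X - C b') := by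
    unfold pol
    exact (Finset.mul_prod_erase B (fun s => X - C s) hb).symm
  rw [h1, taylor_mul, map_sub, taylor_X, taylor_C, C_sub]
  ring

theorem SGE_zero (B : Finset (ZMod p)) (a b : ZMod p) (hb : b ∈ B) :
    tc (pol B) a 0 = (a - b) * (taylor a (∏ b' ∈ B.erase b, (X - C b'))).coeff 0 := by
  unfold tc
  rw [SGE_factor B a b hb, coeff_add, coeff_X_mul_zero, coeff_C_mul, zero_add]

theorem SGE_succ (B : Finset (ZMod p)) (a b : ZMod p) (hb : b ∈ B) (n : ℕ) :
    tc (pol B) a (n + 1) = (taylor a (∏ b' ∈ B.erase b, (X - C b'))).coeff n +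
      (a - b) * (taylor a (∏ b' ∈ B.erase b, (X - C b'))).coeff (n + 1) := by
  unfold tc
  rw [SGE_factor B a b hb, coeff_add, coeff_X_mul, coeff_C_mul]

theorem SGE_sum (h1 : LB_stmt) (B : Finset (ZMod p)) (hB : B.Nonempty) (a : ZMod p) (i : ℕ) :
    ∑ b ∈ B, cw B b * (taylor a (∏ b' ∈ B.erase b, (X - C b'))).coeff i =
      (C ((-1 : ZMod p) ^ (B.card - 1))).coeff i := by
  have h2 := congrArg (fun f => (taylor a f).coeff i) (h1 p B hB)
  simp only [map_sum, taylor_mul, taylor_C, finset_sum_coeff, coeff_C_mul] at h2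
  exact h2

end

theorem SGE (h1 : LB_stmt) : SGE_stmt := by
  intro p _ B a hB hab
  -- the coefficients of the quotients
  have e0 : ∀ b ∈ B, (taylor a (∏ b' ∈ B.erase b, (X - C b'))).coeff 0 =
      tc (pol B) a 0 * (a - b)⁻¹ := by
    intro b hb
    have h := SGE_zero B a b hb
    have hy := hab b hb
    field_simp
    linear_combination -h
  have e1 : ∀ b ∈ B, (taylor a (∏ b' ∈ B.erase b, (X - C b'))).coeff 1 =
      tc (pol B) a 1 * (a - b)⁻¹ - tc (pol B) a 0 * ((a - b) ^ 2)⁻¹ := by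
    intro b hb
    have h := SGE_succ B a b hb 0
    rw [e0 b hb] at h
    have hy := hab b hb
    rw [zero_add] at h
    rw [h]
    field_simp
    ring
  have e2 : ∀ b ∈ B, (taylor a (∏ b' ∈ B.erase b, (X - C b'))).coeff 2 =
      tc (pol B) a 2 * (a - b)⁻¹ - tc (pol B) a 1 * ((a - b) ^ 2)⁻¹ +
        tc (pol B) a 0 * ((a - b) ^ 3)⁻¹ := by
    intro b hb
    have h := SGE_succ B a b hb 1
    rw [e1 b hb] at h
    have hy := hab b hb
    norm_num at h
    rw [h]
    field_simp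
    ring
  have e3 : ∀ b ∈ B, (taylor a (∏ b' ∈ B.erase b, (X - C b'))).coeff 3 =
      tc (pol B) a 3 * (a - b)⁻¹ - tc (pol B) a 2 * ((a - b) ^ 2)⁻¹ +
        tc (pol B) a 1 * ((a - b) ^ 3)⁻¹ - tc (pol B) a 0 * ((a - b) ^ 4)⁻¹ := by
    intro b hb
    have h := SGE_succ B a b hb 2
    rw [e2 b hb] at h
    have hy := hab b hb
    norm_num at h
    rw [h]
    field_simp
    ring
  have e4 : ∀ b ∈ B, (taylor a (∏ b' ∈ B.erase b, (X - C b'))).coeff 4 =
      tc (pol B) a 4 * (a - b)⁻¹ - tc (pol B) a 3 * ((a - b) ^ 2)⁻¹ +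
        tc (pol B) a 2 * ((a - b) ^ 3)⁻¹ - tc (pol B) a 1 * ((a - b) ^ 4)⁻¹ +
        tc (pol B) a 0 * ((a - b) ^ 5)⁻¹ := by
    intro b hb
    have h := SGE_succ B a b hb 3
    rw [e3 b hb] at h
    have hy := hab b hb
    norm_num at h
    rw [h]
    field_simp
    ring
  have s4 := SGE_sum h1 B hB a 4
  rw [coeff_C_ne_zero (by norm_num), Finset.sum_congr rfl fun b hb => by rw [e4 b hb]] at s4
  rw [← s4]
  unfold sg
  rw [Finset.mul_sum, Finset.mul_sum, Finset.mul_sum, Finset.mul_sum, Finset.mul_sum,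
    ← Finset.sum_sub_distrib, ← Finset.sum_add_distrib, ← Finset.sum_sub_distrib,
    ← Finset.sum_add_distrib]
  refine Finset.sum_congr rfl fun b _ => ?_
  rw [zero_add, pow_one]
  ring

end Pool.Agent.SK
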